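import Mathlib

/-!
# Hessian nilpotent power series: general lemmas (helper518)
-/

set_option autoImplicit false

namespace Pool.Agent.Y518.HN

open MvPowerSeries

noncomputable section

variable {n : ℕ}

/-- The Laplace operator on formal power series in `n` variables. -/
def lap (P : MvPowerSeries (Fin n) ℂ) : MvPowerSeries (Fin n) ℂ :=
  ∑ i : Fin n, pderiv ℂ i (pderiv ℂ i P)

/-- The Hessian matrix of a formal power series in `n` variables. -/
def hess (P : MvPowerSeries (Fin n) ℂ) : Matrix (Fin n) (Fin n) (MvPowerSeries (Fin n) ℂ) :=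
  Matrix.of fun i j => pderiv ℂ i (pderiv ℂ j P)

/-- the product of two gradients -/
def gr (f g : MvPowerSeries (Fin n) ℂ) : MvPowerSeries (Fin n) ℂ :=
  ∑ i : Fin n, pderiv ℂ i f * pderiv ℂ i g

/-- the directional derivative -/
def dd (a : Fin n → ℂ) : Derivation ℂ (MvPowerSeries (Fin n) ℂ) (MvPowerSeries (Fin n) ℂ) :=
  ∑ i : Fin n, (C (a i) : MvPowerSeries (Fin n) ℂ) • pderiv ℂ i

theorem dd_apply (a : Fin n → ℂ) (f : MvPowerSeries (Fin n) ℂ) :
    dd a f = ∑ i : Fin n, C (a i) * pderiv ℂ i f := by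
  unfold dd
  have : ∀ s : Finset (Fin n), (∑ i ∈ s, (C (a i) : MvPowerSeries (Fin n) ℂ) • pderiv ℂ i) f =
      ∑ i ∈ s, C (a i) * pderiv ℂ i f := by
    classical
    intro s
    induction s using Finset.induction_on with
    | empty => simp
    | insert i s hi ih =>
      rw [Finset.sum_insert hi, Finset.sum_insert hi, Derivation.add_apply, ih,
        Derivation.smul_apply, smul_eq_mul]
  exact this _

theorem pderiv_comm' (i j : Fin n) (f : MvPowerSeries (Fin n) ℂ) :
    pderiv ℂ i (pderiv ℂ j f) = pderiv ℂ j (pderiv ℂ i f) := by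
  rcases eq_or_ne i j with rfl | h
  · rfl
  ext e
  rw [coeff_pderiv, coeff_pderiv, coeff_pderiv, coeff_pderiv]
  rw [Finsupp.add_apply, Finsupp.add_apply, Finsupp.single_eq_of_ne h, Finsupp.single_eq_of_ne h.symm,
    add_assoc, add_assoc, add_comm (Finsupp.single i 1) (Finsupp.single j 1)]
  push_cast
  ring

theorem pderiv_Cmul (i : Fin n) (c : ℂ) (f : MvPowerSeries (Fin n) ℂ) :
    pderiv ℂ i (C c * f) = C c * pderiv ℂ i f := by
  rw [Derivation.leibniz, pderiv_C, smul_zero, add_zero, smul_eq_mul]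

theorem pderiv_mul' (i : Fin n) (f g : MvPowerSeries (Fin n) ℂ) :
    pderiv ℂ i (f * g) = f * pderiv ℂ i g + g * pderiv ℂ i f := by
  rw [Derivation.leibniz, smul_eq_mul, smul_eq_mul]

theorem lap_add (f g : MvPowerSeries (Fin n) ℂ) : lap (f + g) = lap f + lap g := by
  unfold lap
  simp only [map_add, Finset.sum_add_distrib]

theorem lap_zero : lap (0 : MvPowerSeries (Fin n) ℂ) = 0 := by
  unfold lap
  simp

theorem lap_Cmul (c : ℂ) (f : MvPowerSeries (Fin n) ℂ) : lap (C c * f) = C c * lap f := by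
  unfold lap
  simp only [pderiv_Cmul, Finset.mul_sum]

theorem lap_natmul (k : ℕ) (f : MvPowerSeries (Fin n) ℂ) :
    lap ((k : MvPowerSeries (Fin n) ℂ) * f) = k * lap f := by
  have h : (k : MvPowerSeries (Fin n) ℂ) = C (k : ℂ) := by rw [map_natCast]
  rw [h, lap_Cmul]

theorem lap_iter_add (m : ℕ) : ∀ f g : MvPowerSeries (Fin n) ℂ,
    lap^[m] (f + g) = lap^[m] f + lap^[m] g := by
  induction m with
  | zero => intro f g; rfl
  | succ m ih => intro f g; rw [Function.iterate_succ_apply, lap_add, ih]; rfl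

theorem lap_iter_natmul (m : ℕ) : ∀ (k : ℕ) (f : MvPowerSeries (Fin n) ℂ),
    lap^[m] ((k : MvPowerSeries (Fin n) ℂ) * f) = k * lap^[m] f := by
  induction m with
  | zero => intro k f; rfl
  | succ m ih => intro k f; rw [Function.iterate_succ_apply, lap_natmul, ih]; rfl

theorem lap_iter_zero (m : ℕ) : lap^[m] (0 : MvPowerSeries (Fin n) ℂ) = 0 := by
  have := lap_iter_natmul m 0 (0 : MvPowerSeries (Fin n) ℂ)
  simpa using this

theorem lap_iter_sum (m : ℕ) {ι : Type*} (s : Finset ι) (f : ι → MvPowerSeries (Fin n) ℂ) :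
    lap^[m] (∑ i ∈ s, f i) = ∑ i ∈ s, lap^[m] (f i) := by
  classical
  induction s using Finset.induction_on with
  | empty => rw [Finset.sum_empty, Finset.sum_empty, lap_iter_zero]
  | insert a s ha ih => rw [Finset.sum_insert ha, Finset.sum_insert ha, lap_iter_add, ih]

theorem lap_mul (f g : MvPowerSeries (Fin n) ℂ) :
    lap (f * g) = f * lap g + g * lap f + 2 * gr f g := by
  unfold lap gr
  rw [Finset.mul_sum, Finset.mul_sum, Finset.mul_sum, ← Finset.sum_add_distrib,
    ← Finset.sum_add_distrib]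
  refine Finset.sum_congr rfl fun i _ => ?_
  rw [pderiv_mul', map_add, pderiv_mul', pderiv_mul']
  ring

theorem gr_pow (s g : MvPowerSeries (Fin n) ℂ) (k : ℕ) :
    gr (s ^ k) g = k * s ^ (k - 1) * gr s g := by
  unfold gr
  rw [Finset.mul_sum]
  refine Finset.sum_congr rfl fun i _ => ?_
  rw [pderiv_pow]
  ring

theorem gr_comm (f g : MvPowerSeries (Fin n) ℂ) : gr f g = gr g f := by
  unfold gr
  exact Finset.sum_congr rfl fun i _ => mul_comm _ _

/-- if `s` is harmonic and its gradient is isotropic then all powers of `s` are harmonic -/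
theorem lap_pow {s : MvPowerSeries (Fin n) ℂ} (h1 : lap s = 0) (h2 : gr s s = 0) (k : ℕ) :
    lap (s ^ k) = 0 := by
  induction k with
  | zero => unfold lap; simp
  | succ k ih => rw [pow_succ, lap_mul, ih, h1, gr_pow, h2]; ring

theorem lap_dd (a : Fin n → ℂ) (f : MvPowerSeries (Fin n) ℂ) : lap (dd a f) = dd a (lap f) := by
  rw [dd_apply, dd_apply]
  have h : ∀ s : Finset (Fin n), lap (∑ i ∈ s, C (a i) * pderiv ℂ i f) =
      ∑ i ∈ s, C (a i) * pderiv ℂ i (lap f) := by
    classical
    intro s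
    induction s using Finset.induction_on with
    | empty => rw [Finset.sum_empty, Finset.sum_empty, lap_zero]
    | insert i s hi ih =>
      rw [Finset.sum_insert hi, Finset.sum_insert hi, lap_add, ih, lap_Cmul]
      congr 2
      unfold lap
      rw [map_sum]
      refine Finset.sum_congr rfl fun j _ => ?_
      rw [pderiv_comm' j i, pderiv_comm' j i]
  exact h _

/-- `ℓ` is a linear form with the coefficients `a`, up to a constant -/
def IsLin (a : Fin n → ℂ) (l : MvPowerSeries (Fin n) ℂ) : Prop := ∀ i, pderiv ℂ i l = C (a i)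

theorem IsLin.gr {a : Fin n → ℂ} {l : MvPowerSeries (Fin n) ℂ} (h : IsLin a l)
    (f : MvPowerSeries (Fin n) ℂ) : gr l f = dd a f := by
  rw [dd_apply]
  exact Finset.sum_congr rfl fun i _ => by rw [h i]

theorem IsLin.lap {a : Fin n → ℂ} {l : MvPowerSeries (Fin n) ℂ} (h : IsLin a l) :
    lap l = 0 := by
  unfold HN.lap
  exact Finset.sum_eq_zero fun i _ => by rw [h i, pderiv_C]

theorem IsLin.dd {a b : Fin n → ℂ} {l : MvPowerSeries (Fin n) ℂ} (h : IsLin a l) :
    dd b l = C (∑ i, b i * a i) := by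
  rw [dd_apply, map_sum]
  exact Finset.sum_congr rfl fun i _ => by rw [h i, map_mul]

theorem lap_lin_pow {a : Fin n → ℂ} {l : MvPowerSeries (Fin n) ℂ} (h : IsLin a l)
    (ha : ∑ i, a i * a i = 0) (j : ℕ) {g : MvPowerSeries (Fin n) ℂ} (hg : lap g = 0) :
    lap (l ^ j * g) = ((2 * j : ℕ) : MvPowerSeries (Fin n) ℂ) * (l ^ (j - 1) * dd a g) := by
  have h0 : Pool.Agent.Y518.HN.gr l l = 0 := by rw [h.gr, h.dd, ha, map_zero]
  rw [lap_mul, hg, lap_pow h.lap h0, gr_pow, h.gr]
  push_cast
  ring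

/-- iterated Laplacians -/
theorem lap_iter_lin {a : Fin n → ℂ} {l : MvPowerSeries (Fin n) ℂ} (h : IsLin a l)
    (ha : ∑ i, a i * a i = 0) (m : ℕ) : ∀ (j : ℕ) (g : MvPowerSeries (Fin n) ℂ), lap g = 0 →
    lap^[m] (l ^ j * g) = ((2 ^ m * j.descFactorial m : ℕ) : MvPowerSeries (Fin n) ℂ) *
      (l ^ (j - m) * (dd a)^[m] g) := by
  induction m with
  | zero => intro j g _; simp
  | succ m ih =>
    intro j g hg
    rw [Function.iterate_succ_apply, lap_lin_pow h ha j hg, lap_iter_natmul,
      ih (j - 1) (dd a g) (by rw [lap_dd, hg, map_zero]), Function.iterate_succ_apply]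
    rcases j with _ | j
    · simp
    · rw [Nat.succ_descFactorial_succ, Nat.add_sub_cancel, Nat.add_sub_add_right]
      push_cast
      ring

theorem dd_iter_one (a : Fin n → ℂ) {m : ℕ} (hm : 1 ≤ m) :
    (dd a)^[m] (1 : MvPowerSeries (Fin n) ℂ) = 0 := by
  obtain ⟨k, rfl⟩ : ∃ k, m = k + 1 := ⟨m - 1, by omega⟩
  rw [Function.iterate_succ_apply, Derivation.map_one_eq_zero]
  exact iterate_map_zero (dd a) k

/-- **The key formula.** If all powers of `Q` are harmonic and `a` is isotropic then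
`Δ ^ m (a z + Q) ^ (m + 1) = 2 ^ m (m + 1)! ∂_a ^ m Q` -/
theorem key_formula {a : Fin n → ℂ} {l Q : MvPowerSeries (Fin n) ℂ} (h : IsLin a l)
    (ha : ∑ i, a i * a i = 0) (h1 : lap Q = 0) (h2 : gr Q Q = 0) {m : ℕ} (hm : 1 ≤ m) :
    lap^[m] ((l + Q) ^ (m + 1)) =
      ((2 ^ m * (m + 1).factorial : ℕ) : MvPowerSeries (Fin n) ℂ) * (dd a)^[m] Q := by
  rw [add_pow, lap_iter_sum]
  have key : ∀ k ∈ Finset.range (m + 1 + 1),
      lap^[m] (l ^ k * Q ^ (m + 1 - k) * (((m + 1).choose k : ℕ) : MvPowerSeries (Fin n) ℂ)) =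
      if k = m then ((2 ^ m * (m + 1).factorial : ℕ) : MvPowerSeries (Fin n) ℂ) * (dd a)^[m] Q
        else 0 := by
    intro k hk
    have e1 : l ^ k * Q ^ (m + 1 - k) * (((m + 1).choose k : ℕ) : MvPowerSeries (Fin n) ℂ) =
      (((m + 1).choose k : ℕ) : MvPowerSeries (Fin n) ℂ) * (l ^ k * Q ^ (m + 1 - k)) := by ring
    rw [e1, lap_iter_natmul, lap_iter_lin h ha m k _ (lap_pow h1 h2 _)]
    have hk' : k < m + 2 := Finset.mem_range.mp hk
    split_ifs with h'
    · subst h'
      rw [Nat.descFactorial_self, Nat.sub_self, Nat.choose_succ_self_right]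
      have : k + 1 - k = 1 := by omega
      rw [this, pow_one, pow_zero, Nat.factorial_succ]
      push_cast
      ring
    · rcases lt_or_gt_of_ne h' with h3 | h3
      · rw [Nat.descFactorial_eq_zero_iff_lt.mpr h3]
        simp
      · have h4 : k = m + 1 := by omega
        subst h4
        rw [Nat.sub_self, pow_zero, dd_iter_one a hm]
        simp
  rw [Finset.sum_congr rfl key, Finset.sum_ite_eq']
  simp

theorem natCast_ne {k : ℕ} (hk : k ≠ 0) : (k : MvPowerSeries (Fin n) ℂ) ≠ 0 := by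
  intro h
  have h1 := congrArg (constantCoeff (σ := Fin n) (R := ℂ)) h
  rw [map_natCast, map_zero] at h1
  exact hk (by exact_mod_cast h1)

/-! ### degrees -/

/-- no terms of degree `d` or more -/
def Lt (d : ℕ) (f : MvPowerSeries (Fin n) ℂ) : Prop :=
  ∀ e : Fin n →₀ ℕ, d ≤ e.degree → coeff e f = 0

theorem Lt.dd {d : ℕ} {f : MvPowerSeries (Fin n) ℂ} (h : Lt (d + 1) f) (a : Fin n → ℂ) :
    Lt d (dd a f) := by
  intro e he
  rw [dd_apply, map_sum]
  refine Finset.sum_eq_zero fun i _ => ?_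
  rw [coeff_C_mul, coeff_pderiv, h (e + Finsupp.single i 1), zero_mul, mul_zero]
  rw [map_add, Finsupp.degree_single]
  omega

theorem Lt.zero {f : MvPowerSeries (Fin n) ℂ} (h : Lt 0 f) : f = 0 := by
  ext e
  rw [h e (Nat.zero_le _), coeff_zero]

theorem Lt.iter (a : Fin n → ℂ) (d : ℕ) : ∀ {f : MvPowerSeries (Fin n) ℂ}, Lt d f →
    (HN.dd a)^[d] f = 0 := by
  induction d with
  | zero => intro f h; exact h.zero
  | succ d ih => intro f h; rw [Function.iterate_succ_apply]; exact ih (h.dd a)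

theorem lt_of_poly (p : MvPolynomial (Fin n) ℂ) :
    Lt (p.totalDegree + 1) (p : MvPowerSeries (Fin n) ℂ) := by
  intro e he
  rw [MvPolynomial.coeff_coe]
  apply MvPolynomial.coeff_eq_zero_of_totalDegree_lt
  rw [Finsupp.degree_apply] at he
  omega

/-- a power series which is not killed by the powers of a directional derivative is not a
polynomial -/
theorem not_poly {P : MvPowerSeries (Fin n) ℂ} (a : Fin n → ℂ)
    (h : ∀ m : ℕ, 2 ≤ m → (dd a)^[m] P ≠ 0) :
    ¬ ∃ p : MvPolynomial (Fin n) ℂ, (p : MvPowerSeries (Fin n) ℂ) = P := by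
  rintro ⟨p, rfl⟩
  apply h (p.totalDegree + 2) (by omega)
  refine Lt.iter a _ ?_
  intro e he
  exact lt_of_poly p e (by omega)

/-! ### degree with respect to a derivation -/

theorem deg_mul {R : Type*} [CommRing R] [Algebra ℂ R] (δ : Derivation ℂ R R) (N : ℕ) :
    ∀ m k : ℕ, m + k = N → ∀ f g : R, δ^[m + 1] f = 0 → δ^[k + 1] g = 0 →
      δ^[N + 1] (f * g) = 0 ∧ δ^[N] (f * g) = (N.choose m : R) * (δ^[m] f * δ^[k] g) := by
  induction N with
  | zero =>
    intro m k hmk f g hf hg
    obtain ⟨rfl, rfl⟩ : m = 0 ∧ k = 0 := by omega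
    simp only [Nat.zero_add, Function.iterate_one] at hf hg
    refine ⟨?_, by simp⟩
    simp only [Nat.zero_add, Function.iterate_one]
    rw [Derivation.leibniz, hf, hg, smul_zero, smul_zero, add_zero]
  | succ N ih =>
    intro m k hmk f g hf hg
    have hd : δ (f * g) = f * δ g + δ f * g := by
      rw [Derivation.leibniz, smul_eq_mul, smul_eq_mul, mul_comm g]
    have e1 : δ^[N + 1 + 1] (f * g) = δ^[N + 1] (f * δ g) + δ^[N + 1] (δ f * g) := by
      rw [Function.iterate_succ_apply, hd, iterate_map_add δ]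
    have e2 : δ^[N + 1] (f * g) = δ^[N] (f * δ g) + δ^[N] (δ f * g) := by
      rw [Function.iterate_succ_apply, hd, iterate_map_add δ]
    rw [e1, e2]
    rcases m with _ | m
    · have hk : k = N + 1 := by omega
      subst hk
      simp only [Nat.zero_add, Function.iterate_one] at hf
      rw [Function.iterate_succ_apply] at hg
      obtain ⟨h1, h2⟩ := ih 0 N (by omega) f (δ g) (by simpa using hf) hg
      rw [h1, h2, hf, zero_mul, iterate_map_zero δ, iterate_map_zero δ]
      constructor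
      · simp
      · rw [Function.iterate_succ_apply]
        simp
    · rcases k with _ | k
      · have hm : m = N := by omega
        subst hm
        simp only [Nat.zero_add, Function.iterate_one] at hg
        rw [Function.iterate_succ_apply] at hf
        obtain ⟨h1, h2⟩ := ih m 0 (by omega) (δ f) g hf (by simpa using hg)
        rw [h1, h2, hg, mul_zero, iterate_map_zero δ, iterate_map_zero δ]
        constructor
        · simp
        · rw [Function.iterate_succ_apply]
          simp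
      · have hf' := hf
        have hg' := hg
        rw [Function.iterate_succ_apply] at hf' hg'
        obtain ⟨h1, h2⟩ := ih (m + 1) k (by omega) f (δ g) hf hg'
        obtain ⟨h3, h4⟩ := ih m (k + 1) (by omega) (δ f) g hf' hg
        rw [h1, h2, h3, h4, add_zero]
        refine ⟨rfl, ?_⟩
        have e3 : δ^[k + 1] g = δ^[k] (δ g) := Function.iterate_succ_apply _ _ _
        have e4 : δ^[m + 1] f = δ^[m] (δ f) := Function.iterate_succ_apply _ _ _
        rw [e3, e4, Nat.choose_succ_succ]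
        push_cast
        ring

theorem deg_pow {R : Type*} [CommRing R] [Algebra ℂ R] (δ : Derivation ℂ R R) {d : ℕ} {f : R}
    (hf : δ^[d + 1] f = 0) (k : ℕ) : δ^[k * d + 1] (f ^ k) = 0 ∧
      ∃ c : ℕ, c ≠ 0 ∧ δ^[k * d] (f ^ k) = (c : R) * (δ^[d] f) ^ k := by
  induction k with
  | zero =>
    refine ⟨?_, 1, one_ne_zero, by simp⟩
    simp
  | succ k ih =>
    obtain ⟨h1, c, hc, h2⟩ := ih
    have h3 := deg_mul δ (k * d + d) (k * d) d rfl (f ^ k) f h1 hf
    rw [← pow_succ, ← Nat.succ_mul] at h3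
    refine ⟨h3.1, (k.succ * d).choose (k * d) * c, ?_, ?_⟩
    · refine mul_ne_zero ?_ hc
      exact (Nat.choose_pos (by rw [Nat.succ_mul]; omega)).ne'
    · rw [h3.2, h2]
      push_cast
      ring

end

end Pool.Agent.Y518.HN
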