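import Pool.Agent.Y518.HN.Basic

/-!
# Hessian nilpotent power series: examples of arbitrary order in three or more variables (helper518)
-/

set_option autoImplicit false

namespace Pool.Agent.Y518.HN

open MvPowerSeries

noncomputable section

variable {n : ℕ}

/-! ### fixed points -/

theorem order_trans {f g h : MvPowerSeries (Fin n) ℂ} {k : ℕ∞} (h1 : k ≤ (f - g).order)
    (h2 : k ≤ (g - h).order) : k ≤ (f - h).order := by
  have h3 : f - h = (f - g) + (g - h) := by ring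
  rw [h3]
  exact (le_min h1 h2).trans min_order_le_add

theorem order_symm {f g : MvPowerSeries (Fin n) ℂ} {k : ℕ∞} (h1 : k ≤ (f - g).order) :
    k ≤ (g - f).order := by
  rw [← neg_sub, order_neg]
  exact h1

theorem exists_fix (Φ : MvPowerSeries (Fin n) ℂ → MvPowerSeries (Fin n) ℂ)
    (h : ∀ (f g : MvPowerSeries (Fin n) ℂ) (k : ℕ), (k : ℕ∞) ≤ (f - g).order →
      ((k + 1 : ℕ) : ℕ∞) ≤ (Φ f - Φ g).order) : ∃ s, Φ s = s := by
  set q : ℕ → MvPowerSeries (Fin n) ℂ := fun k => Φ^[k] 0 with hq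
  have hq1 : ∀ k, q (k + 1) = Φ (q k) := fun k => Function.iterate_succ_apply' _ _ _
  have h1 : ∀ k : ℕ, (k : ℕ∞) ≤ (q (k + 1) - q k).order := by
    intro k
    induction k with
    | zero => simp
    | succ k ih => rw [hq1 (k + 1), hq1 k]; rw [hq1 k] at ih; exact h _ _ _ ih
  have h2 : ∀ k j : ℕ, (k : ℕ∞) ≤ (q (k + j) - q k).order := by
    intro k j
    induction j with
    | zero => simp
    | succ j ih =>
      refine order_trans (g := q (k + j)) ?_ ih
      refine le_trans ?_ (h1 (k + j))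
      exact_mod_cast Nat.le_add_right k j
  set s : MvPowerSeries (Fin n) ℂ := fun e => coeff e (q (e.degree + 1)) with hs
  have hcs : ∀ e, coeff e s = coeff e (q (e.degree + 1)) := fun e => rfl
  have h3 : ∀ k : ℕ, (k : ℕ∞) ≤ (s - q k).order := by
    intro k
    apply nat_le_order
    intro e he
    rw [map_sub, hcs]
    obtain ⟨j, rfl⟩ : ∃ j, k = e.degree + 1 + j := ⟨k - (e.degree + 1), by omega⟩
    have h4 := h2 (e.degree + 1) j
    have h5 : coeff e (q (e.degree + 1 + j) - q (e.degree + 1)) = 0 := by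
      apply coeff_of_lt_order
      refine lt_of_lt_of_le ?_ h4
      exact_mod_cast Nat.lt_succ_self _
    rw [map_sub] at h5
    rw [← neg_sub, h5, neg_zero]
  refine ⟨s, ?_⟩
  have h4 : ∀ k : ℕ, ((k + 1 : ℕ) : ℕ∞) ≤ (Φ s - s).order := by
    intro k
    refine order_trans (g := q (k + 1)) ?_ (order_symm (h3 (k + 1)))
    rw [hq1]
    exact h _ _ _ (h3 k)
  rw [← sub_eq_zero]
  ext e
  rw [coeff_zero]
  apply coeff_of_lt_order
  refine lt_of_lt_of_le ?_ (h4 e.degree)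
  exact_mod_cast Nat.lt_succ_self _

/-- the equation of the example -/
theorem exists_root (K : ℕ) {u v t : MvPowerSeries (Fin n) ℂ}
    (hv : constantCoeff v = 0) (ht : constantCoeff t = 0) :
    ∃ s : MvPowerSeries (Fin n) ℂ, u + 2 * t * s ^ K - v * (s ^ K) ^ 2 = s := by
  refine exists_fix (fun s => u + 2 * t * s ^ K - v * (s ^ K) ^ 2) ?_
  intro f g k hk
  obtain ⟨c, hc⟩ := sub_dvd_pow_sub_pow f g K
  have h1 : u + 2 * t * f ^ K - v * (f ^ K) ^ 2 - (u + 2 * t * g ^ K - v * (g ^ K) ^ 2) =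
      (f - g) * (c * (2 * t - v * (f ^ K + g ^ K))) := by
    linear_combination (2 * t - v * (f ^ K + g ^ K)) * hc
  show _ ≤ (u + 2 * t * f ^ K - v * (f ^ K) ^ 2 - (u + 2 * t * g ^ K - v * (g ^ K) ^ 2)).order
  rw [h1]
  refine le_trans ?_ le_order_mul
  have h2 : (1 : ℕ∞) ≤ (c * (2 * t - v * (f ^ K + g ^ K))).order := by
    rw [one_le_order_iff_constCoeff_eq_zero]
    simp [hv, ht]
  push_cast
  exact add_le_add hk h2

/-! ### the algebra of the example -/

section alg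

variable (a b c : Fin n → ℂ) (u v t s : MvPowerSeries (Fin n) ℂ) (K : ℕ)

/-- the data of the example -/
structure Dat (a b c : Fin n → ℂ) (u v t s : MvPowerSeries (Fin n) ℂ) (K : ℕ) : Prop where
  hu : IsLin a u
  hv : IsLin b v
  ht : IsLin c t
  aa : ∑ i, a i * a i = 0
  ab : ∑ i, a i * b i = 2
  ac : ∑ i, a i * c i = 0
  bb : ∑ i, b i * b i = 0
  bc : ∑ i, b i * c i = 0
  cc : ∑ i, c i * c i = 1
  u0 : constantCoeff u = 0
  v0 : constantCoeff v = 0
  t0 : constantCoeff t = 0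
  K1 : 1 ≤ K
  eq : u + 2 * t * s ^ K - v * (s ^ K) ^ 2 = s

variable {a b c u v t s K}

theorem sumC (x y : Fin n → ℂ) : ∑ i, (C (x i) : MvPowerSeries (Fin n) ℂ) * C (y i) =
    C (∑ i, x i * y i) := by
  rw [map_sum]
  exact Finset.sum_congr rfl fun i _ => (map_mul _ _ _).symm

/-- the null curve -/
def kap (a b c : Fin n → ℂ) (σ : MvPowerSeries (Fin n) ℂ) (i : Fin n) : MvPowerSeries (Fin n) ℂ :=
  C (a i) + 2 * C (c i) * σ - C (b i) * σ ^ 2

/-- its derivative -/
def eta (b c : Fin n → ℂ) (σ : MvPowerSeries (Fin n) ℂ) (i : Fin n) : MvPowerSeries (Fin n) ℂ :=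
  2 * C (c i) - 2 * C (b i) * σ

theorem Dat.kk (h : Dat a b c u v t s K) (σ : MvPowerSeries (Fin n) ℂ) :
    ∑ i, kap a b c σ i * kap a b c σ i = 0 := by
  have h1 : ∑ i, kap a b c σ i * kap a b c σ i =
      (∑ i, (C (a i) : MvPowerSeries (Fin n) ℂ) * C (a i)) +
      (4 * σ) * (∑ i, (C (a i) : MvPowerSeries (Fin n) ℂ) * C (c i)) +
      (4 * σ ^ 2) * (∑ i, (C (c i) : MvPowerSeries (Fin n) ℂ) * C (c i)) +
      (-2 * σ ^ 2) * (∑ i, (C (a i) : MvPowerSeries (Fin n) ℂ) * C (b i)) +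
      (-4 * σ ^ 3) * (∑ i, (C (b i) : MvPowerSeries (Fin n) ℂ) * C (c i)) +
      (σ ^ 4) * (∑ i, (C (b i) : MvPowerSeries (Fin n) ℂ) * C (b i)) := by
    simp only [Finset.mul_sum, ← Finset.sum_add_distrib]
    refine Finset.sum_congr rfl fun i _ => ?_
    unfold kap
    ring
  rw [h1, sumC, sumC, sumC, sumC, sumC, sumC, h.aa, h.ac, h.cc, h.ab, h.bc, h.bb, map_zero, map_one]
  have h2 : (C 2 : MvPowerSeries (Fin n) ℂ) = 2 := map_ofNat _ 2
  rw [h2]
  ring

theorem Dat.ke (h : Dat a b c u v t s K) (σ : MvPowerSeries (Fin n) ℂ) :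
    ∑ i, kap a b c σ i * eta b c σ i = 0 := by
  have h1 : ∑ i, kap a b c σ i * eta b c σ i =
      2 * (∑ i, (C (a i) : MvPowerSeries (Fin n) ℂ) * C (c i)) +
      (-2 * σ) * (∑ i, (C (a i) : MvPowerSeries (Fin n) ℂ) * C (b i)) +
      (4 * σ) * (∑ i, (C (c i) : MvPowerSeries (Fin n) ℂ) * C (c i)) +
      (-6 * σ ^ 2) * (∑ i, (C (b i) : MvPowerSeries (Fin n) ℂ) * C (c i)) +
      (2 * σ ^ 3) * (∑ i, (C (b i) : MvPowerSeries (Fin n) ℂ) * C (b i)) := by
    simp only [Finset.mul_sum, ← Finset.sum_add_distrib]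
    refine Finset.sum_congr rfl fun i _ => ?_
    unfold kap eta
    ring
  rw [h1, sumC, sumC, sumC, sumC, sumC, h.ac, h.ab, h.cc, h.bc, h.bb, map_zero, map_one]
  have h2 : (C 2 : MvPowerSeries (Fin n) ℂ) = 2 := map_ofNat _ 2
  rw [h2]
  ring

/-- the derivative of `s ^ K` with respect to `s` -/
def sig1 (s : MvPowerSeries (Fin n) ℂ) (K : ℕ) : MvPowerSeries (Fin n) ℂ := (K : MvPowerSeries (Fin n) ℂ) * s ^ (K - 1)

def tau (v t s : MvPowerSeries (Fin n) ℂ) (K : ℕ) : MvPowerSeries (Fin n) ℂ :=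
  2 * t - 2 * v * s ^ K

/-- the Jacobian of the equation -/
def DD (v t s : MvPowerSeries (Fin n) ℂ) (K : ℕ) : MvPowerSeries (Fin n) ℂ :=
  1 - tau v t s K * sig1 s K

theorem dsig (s : MvPowerSeries (Fin n) ℂ) (K : ℕ) (i : Fin n) :
    pderiv ℂ i (s ^ K) = sig1 s K * pderiv ℂ i s := by
  rw [pderiv_pow, sig1]

theorem dsig2 (s : MvPowerSeries (Fin n) ℂ) (K : ℕ) (i : Fin n) :
    pderiv ℂ i ((s ^ K) ^ 2) = 2 * s ^ K * (sig1 s K * pderiv ℂ i s) := by
  rw [pow_two, pderiv_mul', dsig]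
  ring

theorem d_two (i : Fin n) (f : MvPowerSeries (Fin n) ℂ) :
    pderiv ℂ i (2 * f) = 2 * pderiv ℂ i f := by
  have h2 : (2 : MvPowerSeries (Fin n) ℂ) = C 2 := (map_ofNat _ 2).symm
  rw [h2, pderiv_Cmul]

/-- the gradient -/
theorem Dat.grad (h : Dat a b c u v t s K) (i : Fin n) :
    DD v t s K * pderiv ℂ i s = kap a b c (s ^ K) i := by
  have h1 : pderiv ℂ i s = pderiv ℂ i (u + 2 * t * s ^ K - v * (s ^ K) ^ 2) := by rw [h.eq]
  rw [map_sub, map_add, pderiv_mul', d_two, pderiv_mul', dsig2, dsig, h.hu i, h.hv i,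
    h.ht i] at h1
  unfold DD kap tau
  linear_combination h1

theorem Dat.D0 (h : Dat a b c u v t s K) : DD v t s K ≠ 0 := by
  intro h0
  have h1 := congrArg (constantCoeff (σ := Fin n) (R := ℂ)) h0
  unfold DD tau at h1
  simp [h.v0, h.t0] at h1

theorem Dat.ss (h : Dat a b c u v t s K) : ∑ i, pderiv ℂ i s * pderiv ℂ i s = 0 := by
  have h1 : DD v t s K ^ 2 * ∑ i, pderiv ℂ i s * pderiv ℂ i s = 0 := by
    rw [← h.kk (s ^ K), Finset.mul_sum]
    refine Finset.sum_congr rfl fun i _ => ?_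
    rw [← h.grad i]
    ring
  exact (mul_eq_zero.1 h1).resolve_left (pow_ne_zero 2 h.D0)

theorem Dat.se (h : Dat a b c u v t s K) : ∑ i, pderiv ℂ i s * eta b c (s ^ K) i = 0 := by
  have h1 : DD v t s K * ∑ i, pderiv ℂ i s * eta b c (s ^ K) i = 0 := by
    rw [← h.ke (s ^ K), Finset.mul_sum]
    refine Finset.sum_congr rfl fun i _ => ?_
    rw [← h.grad i]
    ring
  exact (mul_eq_zero.1 h1).resolve_left h.D0

/-- the coefficient in the Hessian -/
def the (v t s : MvPowerSeries (Fin n) ℂ) (K : ℕ) : MvPowerSeries (Fin n) ℂ :=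
  tau v t s K * (K * (((K - 1 : ℕ) : MvPowerSeries (Fin n) ℂ) * s ^ (K - 1 - 1))) -
    2 * v * sig1 s K ^ 2

/-- the Hessian -/
theorem Dat.hes (h : Dat a b c u v t s K) (i j : Fin n) :
    DD v t s K * pderiv ℂ i (pderiv ℂ j s) =
      sig1 s K * (pderiv ℂ i s * eta b c (s ^ K) j + eta b c (s ^ K) i * pderiv ℂ j s) +
        the v t s K * (pderiv ℂ i s * pderiv ℂ j s) := by
  have h1 := congrArg (pderiv ℂ i) (h.grad j)
  have hnat : ∀ (k : ℕ) (f : MvPowerSeries (Fin n) ℂ), pderiv ℂ i ((k : MvPowerSeries (Fin n) ℂ) * f) =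
      k * pderiv ℂ i f := by
    intro k f
    have h : (k : MvPowerSeries (Fin n) ℂ) = C (k : ℂ) := by rw [map_natCast]
    rw [h, pderiv_Cmul]
  have hk : pderiv ℂ i (kap a b c (s ^ K) j) = eta b c (s ^ K) j * (sig1 s K * pderiv ℂ i s) := by
    unfold kap eta
    rw [map_sub, map_add, pderiv_C, mul_assoc, d_two, pderiv_Cmul, pderiv_Cmul, dsig2, dsig]
    ring
  have ht : pderiv ℂ i (tau v t s K) = eta b c (s ^ K) i - 2 * v * (sig1 s K * pderiv ℂ i s) := by
    unfold tau eta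
    rw [map_sub, d_two, mul_assoc, d_two, pderiv_mul', dsig, h.ht i, h.hv i]
    ring
  have hs1 : pderiv ℂ i (sig1 s K) =
      K * (((K - 1 : ℕ) : MvPowerSeries (Fin n) ℂ) * s ^ (K - 1 - 1)) * pderiv ℂ i s := by
    conv_lhs => unfold sig1
    rw [hnat, pderiv_pow]
    ring
  have hD : pderiv ℂ i (DD v t s K) = -(tau v t s K * (K * (((K - 1 : ℕ) : MvPowerSeries (Fin n) ℂ) *
      s ^ (K - 1 - 1)) * pderiv ℂ i s) + sig1 s K * (eta b c (s ^ K) i -
      2 * v * (sig1 s K * pderiv ℂ i s))) := by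
    unfold DD
    rw [map_sub, Derivation.map_one_eq_zero, pderiv_mul', hs1, ht]
    ring
  rw [pderiv_mul', hk, hD] at h1
  unfold the
  linear_combination h1

theorem Dat.lap0 (h : Dat a b c u v t s K) : lap s = 0 := by
  have h1 : DD v t s K * lap s = 0 := by
    unfold lap
    rw [Finset.mul_sum]
    have h2 : ∀ i ∈ Finset.univ, DD v t s K * pderiv ℂ i (pderiv ℂ i s) =
        (2 * sig1 s K) * (pderiv ℂ i s * eta b c (s ^ K) i) +
        the v t s K * (pderiv ℂ i s * pderiv ℂ i s) := by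
      intro i _
      rw [h.hes]
      ring
    rw [Finset.sum_congr rfl h2, Finset.sum_add_distrib, ← Finset.mul_sum, ← Finset.mul_sum, h.se,
      h.ss]
    ring
  exact (mul_eq_zero.1 h1).resolve_left h.D0

theorem Dat.gr0 (h : Dat a b c u v t s K) : gr s s = 0 := h.ss

/-- a matrix built from isotropic vectors -/
theorem cube_zero (e g : Fin n → MvPowerSeries (Fin n) ℂ) (x y : MvPowerSeries (Fin n) ℂ)
    (hee : ∑ k, e k * e k = 0) (heg : ∑ k, e k * g k = 0)
    (W : Matrix (Fin n) (Fin n) (MvPowerSeries (Fin n) ℂ))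
    (hW : ∀ i j, W i j = x * (e i * g j + g i * e j) + y * (e i * e j)) : W * W * W = 0 := by
  have h1 : ∀ i j, (W * W) i j = x ^ 2 * (∑ k, g k * g k) * (e i * e j) := by
    intro i j
    rw [Matrix.mul_apply]
    have h2 : ∀ k ∈ Finset.univ, W i k * W k j = (x ^ 2 * (e i * e j)) * (g k * g k) +
        (x * e i * (x * g j + y * e j) + x * e j * (x * g i + y * e i)) * (e k * g k) +
        ((x * g i + y * e i) * (x * g j + y * e j)) * (e k * e k) := by
      intro k _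
      rw [hW, hW]
      ring
    rw [Finset.sum_congr rfl h2, Finset.sum_add_distrib, Finset.sum_add_distrib, ← Finset.mul_sum,
      ← Finset.mul_sum, ← Finset.mul_sum, hee, heg]
    ring
  ext1 i j
  rw [Matrix.mul_apply, Matrix.zero_apply]
  have h2 : ∀ k ∈ Finset.univ, (W * W) i k * W k j =
      (x ^ 2 * (∑ k, g k * g k) * e i * (x * e j)) * (e k * g k) +
      (x ^ 2 * (∑ k, g k * g k) * e i * (x * g j + y * e j)) * (e k * e k) := by
    intro k _
    rw [h1, hW]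
    ring
  rw [Finset.sum_congr rfl h2, Finset.sum_add_distrib, ← Finset.mul_sum, ← Finset.mul_sum, hee, heg]
  ring

theorem Dat.nilp (h : Dat a b c u v t s K) : IsNilpotent (hess s) := by
  refine ⟨3, ?_⟩
  have h1 := cube_zero (fun i => pderiv ℂ i s) (fun i => eta b c (s ^ K) i) (sig1 s K)
    (the v t s K) h.ss h.se (DD v t s K • hess s) (fun i j => by
      rw [Matrix.smul_apply, smul_eq_mul]
      exact h.hes i j)
  rw [Matrix.smul_mul, Matrix.mul_smul, Matrix.smul_mul, Matrix.mul_smul, smul_smul, Matrix.smul_mul,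
    smul_smul] at h1
  have h2 : hess s ^ 3 = hess s * hess s * hess s := by rw [pow_succ, pow_two]
  rw [h2]
  ext1 i j
  have h3 := congrFun (congrFun h1 i) j
  rw [Matrix.smul_apply, smul_eq_mul, Matrix.zero_apply] at h3
  rw [Matrix.zero_apply]
  exact (mul_eq_zero.1 h3).resolve_left (mul_ne_zero (mul_ne_zero h.D0 h.D0) h.D0)

/-! ### nonvanishing -/

theorem iter_mono {R : Type*} [CommRing R] [Algebra ℂ R] (δ : Derivation ℂ R R) {j k : ℕ} {f : R}
    (h : δ^[j] f = 0) (hjk : j ≤ k) : δ^[k] f = 0 := by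
  obtain ⟨m, rfl⟩ : ∃ m, k = m + j := ⟨k - j, by omega⟩
  rw [Function.iterate_add_apply, h]
  exact iterate_map_zero δ m

theorem Dat.s0 (h : Dat a b c u v t s K) : s ≠ 0 := by
  rintro rfl
  have h1 := h.eq
  have hK : K ≠ 0 := by have := h.K1; omega
  rw [zero_pow hK] at h1
  have hu0 : u = 0 := by simpa using h1
  have h2 : dd b u = C (∑ i, b i * a i) := h.hu.dd
  have h3 : ∑ i, b i * a i = 2 := by
    rw [← h.ab]
    exact Finset.sum_congr rfl fun i _ => mul_comm _ _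
  rw [hu0, map_zero, h3] at h2
  have h4 := congrArg (constantCoeff (σ := Fin n) (R := ℂ)) h2
  rw [map_zero, constantCoeff_C] at h4
  norm_num at h4

theorem Dat.nonvan (h : Dat a b c u v t s K) (m : ℕ) : (dd fun i => -a i)^[m] s ≠ 0 := by
  classical
  set δ := dd (fun i => -a i) with hδ
  intro hm
  have hex : ∃ m, δ^[m] s = 0 := ⟨m, hm⟩
  obtain ⟨N, hN, hmin⟩ : ∃ N, δ^[N] s = 0 ∧ ∀ k < N, δ^[k] s ≠ 0 :=
    ⟨Nat.find hex, Nat.find_spec hex, fun k hk => Nat.find_min hex hk⟩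
  obtain ⟨d, rfl⟩ : ∃ d, N = d + 1 := by
    rcases N with _ | d
    · exact (h.s0 hN).elim
    · exact ⟨d, rfl⟩
  have hw : δ^[d] s ≠ 0 := hmin d (Nat.lt_succ_self d)
  have hu : δ u = 0 := by
    rw [hδ, h.hu.dd]
    have : ∑ i, -a i * a i = 0 := by
      rw [← neg_eq_zero, ← Finset.sum_neg_distrib, ← h.aa]
      exact Finset.sum_congr rfl fun i _ => by ring
    rw [this, map_zero]
  have ht : δ t = 0 := by
    rw [hδ, h.ht.dd]
    have : ∑ i, -a i * c i = 0 := by
      rw [← neg_eq_zero, ← Finset.sum_neg_distrib, ← h.ac]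
      exact Finset.sum_congr rfl fun i _ => by ring
    rw [this, map_zero]
  have hv : δ v = C (-2) := by
    rw [hδ, h.hv.dd]
    congr 1
    rw [← h.ab, ← Finset.sum_neg_distrib]
    exact Finset.sum_congr rfl fun i _ => by ring
  have hC : ∀ z : ℂ, δ (C z) = 0 := by
    intro z
    rw [hδ, dd_apply]
    exact Finset.sum_eq_zero fun i _ => by rw [pderiv_C, mul_zero]
  -- the power
  obtain ⟨p1, cN, hc, p2⟩ := deg_pow δ hN (2 * K)
  obtain ⟨q1, -⟩ := deg_pow δ hN K
  have r1 := deg_mul δ (1 + 2 * K * d) 1 (2 * K * d) rfl v (s ^ (2 * K))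
    (by rw [Function.iterate_succ_apply, Function.iterate_one, hv, hC]) p1
  have r2 := deg_mul δ (0 + K * d) 0 (K * d) rfl (2 * t) (s ^ K)
    (by
      rw [Nat.zero_add, Function.iterate_one]
      have h2 : (2 : MvPowerSeries (Fin n) ℂ) = C 2 := (map_ofNat _ 2).symm
      rw [h2, Derivation.leibniz, ht, hC, smul_zero, smul_zero, add_zero]) q1
  have hle1 : 0 + K * d + 1 ≤ 1 + 2 * K * d := by
    have : K * d ≤ 2 * K * d := by nlinarith
    omega
  have hle2 : d + 1 ≤ 1 + 2 * K * d := by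
    have h1 : 1 * d ≤ 2 * K * d := Nat.mul_le_mul_right d (by have := h.K1; omega)
    omega
  have h5 : v * s ^ (2 * K) = (u + 2 * t * s ^ K) - s := by
    have h6 : (s ^ K) ^ 2 = s ^ (2 * K) := by rw [← pow_mul, mul_comm]
    have h7 := h.eq
    rw [h6] at h7
    linear_combination -h7
  have h6 : δ^[1 + 2 * K * d] (v * s ^ (2 * K)) = 0 := by
    rw [h5, iterate_map_sub δ, iterate_map_add δ, iter_mono δ r2.1 hle1, iter_mono δ hN hle2,
      iter_mono δ (j := 1) (by rw [Function.iterate_one, hu]) (by omega)]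
    simp
  rw [r1.2, p2, Function.iterate_one, hv] at h6
  have h7 : ((1 + 2 * K * d).choose 1 : MvPowerSeries (Fin n) ℂ) ≠ 0 := by
    apply natCast_ne
    rw [Nat.choose_one_right]
    omega
  have h8 : (C (-2) : MvPowerSeries (Fin n) ℂ) ≠ 0 := by
    intro h0
    have := congrArg (constantCoeff (σ := Fin n) (R := ℂ)) h0
    rw [constantCoeff_C, map_zero] at this
    norm_num at this
  exact mul_ne_zero h7 (mul_ne_zero h8 (mul_ne_zero (natCast_ne hc) (pow_ne_zero _ hw))) h6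

end alg

theorem hess_add (f g : MvPowerSeries (Fin n) ℂ) : hess (f + g) = hess f + hess g := by
  ext1 i j
  simp [hess]

theorem IsLin.hess {a : Fin n → ℂ} {l : MvPowerSeries (Fin n) ℂ} (h : IsLin a l) :
    hess l = 0 := by
  ext1 i j
  simp only [HN.hess, Matrix.of_apply, Matrix.zero_apply]
  rw [h j, pderiv_C]

/-- the assembly: from `Q` to `P = ℓ + Q` -/
theorem assemble {a : Fin n → ℂ} {l Q : MvPowerSeries (Fin n) ℂ} (h : IsLin a l)
    (ha : ∑ i, a i * a i = 0) (h1 : lap Q = 0) (h2 : gr Q Q = 0) (h3 : IsNilpotent (hess Q))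
    (h4 : ∀ m : ℕ, 1 ≤ m → (dd a)^[m] Q ≠ 0) :
    (¬ ∃ p : MvPolynomial (Fin n) ℂ, (p : MvPowerSeries (Fin n) ℂ) = l + Q) ∧
    IsNilpotent (hess (l + Q)) ∧ ∀ m : ℕ, lap^[m] ((l + Q) ^ (m + 1)) ≠ 0 := by
  refine ⟨?_, ?_, ?_⟩
  · apply not_poly a
    intro m hm
    rw [iterate_map_add (dd a), iter_mono (dd a) (j := 1) (k := m)
      (by rw [Function.iterate_one, h.dd, ha, map_zero]) (by omega), zero_add]
    exact h4 m (by omega)
  · rw [hess_add, h.hess, zero_add]
    exact h3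
  · intro m
    have hne : ∀ m : ℕ, 1 ≤ m → lap^[m] ((l + Q) ^ (m + 1)) ≠ 0 := by
      intro m hm
      rw [key_formula h ha h1 h2 hm]
      refine mul_ne_zero (natCast_ne ?_) (h4 m hm)
      have := Nat.factorial_ne_zero (m + 1)
      positivity
    rcases Nat.eq_zero_or_pos m with rfl | hm
    · intro h0
      rw [Function.iterate_zero_apply, zero_add, pow_one] at h0
      apply hne 1 le_rfl
      rw [h0, zero_pow (by norm_num), lap_iter_zero]
    · exact hne m hm

end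

end Pool.Agent.Y518.HN
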