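import Pool.Agent.Y518.HN.Three

/-!
# Hessian nilpotent power series: two variables, and the instances (helper518)
-/

set_option autoImplicit false

namespace Pool.Agent.Y518.HN

open MvPowerSeries

noncomputable section

variable {n : ℕ}

/-- unit vector -/
def ev (j : Fin n) (i : Fin n) : ℂ := if i = j then 1 else 0

theorem sum_ev (j k : Fin n) : ∑ i, ev j i * ev k i = if j = k then 1 else 0 := by
  classical
  unfold ev
  simp [eq_comm]

theorem isLin_X (j : Fin n) : IsLin (ev j) (X j) := by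
  intro i
  unfold ev
  split_ifs with h
  · subst h
    rw [pderiv_X_self, map_one]
  · rw [pderiv_X_of_ne (Ne.symm h), map_zero]

theorem IsLin.add {a b : Fin n → ℂ} {f g : MvPowerSeries (Fin n) ℂ} (h1 : IsLin a f)
    (h2 : IsLin b g) : IsLin (fun i => a i + b i) (f + g) := by
  intro i
  rw [map_add, h1 i, h2 i, map_add]

theorem IsLin.Cmul {a : Fin n → ℂ} {f : MvPowerSeries (Fin n) ℂ} (z : ℂ) (h1 : IsLin a f) :
    IsLin (fun i => z * a i) (C z * f) := by
  intro i
  rw [pderiv_Cmul, h1 i, map_mul]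

theorem IsLin.neg {a : Fin n → ℂ} {f : MvPowerSeries (Fin n) ℂ} (h1 : IsLin a f) :
    IsLin (fun i => -a i) (-f) := by
  intro i
  rw [map_neg, h1 i, map_neg]

/-- `z₁ + i z₂` -/
def uu (i0 i1 : Fin n) : MvPowerSeries (Fin n) ℂ := X i0 + C Complex.I * X i1

/-- `z₁ - i z₂` -/
def vv (i0 i1 : Fin n) : MvPowerSeries (Fin n) ℂ := X i0 + C (-Complex.I) * X i1

def au (i0 i1 : Fin n) (i : Fin n) : ℂ := ev i0 i + Complex.I * ev i1 i
def bv (i0 i1 : Fin n) (i : Fin n) : ℂ := ev i0 i + -Complex.I * ev i1 i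

theorem lin_uu (i0 i1 : Fin n) : IsLin (au i0 i1) (uu i0 i1) :=
  (isLin_X i0).add ((isLin_X i1).Cmul _)

theorem lin_vv (i0 i1 : Fin n) : IsLin (bv i0 i1) (vv i0 i1) :=
  (isLin_X i0).add ((isLin_X i1).Cmul _)

theorem s_aa {i0 i1 : Fin n} (h : i0 ≠ i1) : ∑ i, au i0 i1 i * au i0 i1 i = 0 := by
  have h1 : ∑ i, au i0 i1 i * au i0 i1 i = (∑ i, ev i0 i * ev i0 i) +
      (2 * Complex.I) * (∑ i, ev i0 i * ev i1 i) +
      (Complex.I * Complex.I) * (∑ i, ev i1 i * ev i1 i) := by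
    simp only [Finset.mul_sum, ← Finset.sum_add_distrib]
    exact Finset.sum_congr rfl fun i _ => by unfold au; ring
  rw [h1, sum_ev, sum_ev, sum_ev, Complex.I_mul_I]
  simp [h]

theorem s_bb {i0 i1 : Fin n} (h : i0 ≠ i1) : ∑ i, bv i0 i1 i * bv i0 i1 i = 0 := by
  have h1 : ∑ i, bv i0 i1 i * bv i0 i1 i = (∑ i, ev i0 i * ev i0 i) +
      (-2 * Complex.I) * (∑ i, ev i0 i * ev i1 i) +
      (Complex.I * Complex.I) * (∑ i, ev i1 i * ev i1 i) := by
    simp only [Finset.mul_sum, ← Finset.sum_add_distrib]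
    exact Finset.sum_congr rfl fun i _ => by unfold bv; ring
  rw [h1, sum_ev, sum_ev, sum_ev, Complex.I_mul_I]
  simp [h]

theorem s_ab {i0 i1 : Fin n} (_h : i0 ≠ i1) : ∑ i, au i0 i1 i * bv i0 i1 i = 2 := by
  have h1 : ∑ i, au i0 i1 i * bv i0 i1 i = (∑ i, ev i0 i * ev i0 i) +
      (-(Complex.I * Complex.I)) * (∑ i, ev i1 i * ev i1 i) := by
    simp only [Finset.mul_sum, ← Finset.sum_add_distrib]
    exact Finset.sum_congr rfl fun i _ => by unfold au bv; ring
  rw [h1, sum_ev, sum_ev, Complex.I_mul_I]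
  norm_num

theorem s_ac {i0 i1 i2 : Fin n} (h0 : i0 ≠ i2) (h1 : i1 ≠ i2) :
    ∑ i, au i0 i1 i * ev i2 i = 0 := by
  have h2 : ∑ i, au i0 i1 i * ev i2 i = (∑ i, ev i0 i * ev i2 i) +
      Complex.I * (∑ i, ev i1 i * ev i2 i) := by
    simp only [Finset.mul_sum, ← Finset.sum_add_distrib]
    exact Finset.sum_congr rfl fun i _ => by unfold au; ring
  rw [h2, sum_ev, sum_ev]
  simp [h0, h1]

theorem s_bc {i0 i1 i2 : Fin n} (h0 : i0 ≠ i2) (h1 : i1 ≠ i2) :
    ∑ i, bv i0 i1 i * ev i2 i = 0 := by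
  have h2 : ∑ i, bv i0 i1 i * ev i2 i = (∑ i, ev i0 i * ev i2 i) +
      -Complex.I * (∑ i, ev i1 i * ev i2 i) := by
    simp only [Finset.mul_sum, ← Finset.sum_add_distrib]
    exact Finset.sum_congr rfl fun i _ => by unfold bv; ring
  rw [h2, sum_ev, sum_ev]
  simp [h0, h1]

/-- the property of the examples -/
def Example (n r : ℕ) (P : MvPowerSeries (Fin n) ℂ) : Prop :=
  (¬ ∃ p : MvPolynomial (Fin n) ℂ, (p : MvPowerSeries (Fin n) ℂ) = P) ∧ (r : ℕ∞) ≤ P.order ∧
    IsNilpotent (hess P) ∧ ∀ m : ℕ, lap^[m] (P ^ (m + 1)) ≠ 0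

/-- three variables, arbitrary order -/
theorem three_ex (i0 i1 i2 : Fin n) (h01 : i0 ≠ i1) (h02 : i0 ≠ i2) (h12 : i1 ≠ i2) (K : ℕ)
    (hK : 1 ≤ K) : ∃ s P : MvPowerSeries (Fin n) ℂ,
      s = uu i0 i1 + 2 * X i2 * s ^ K - vv i0 i1 * s ^ (2 * K) ∧ P = s - uu i0 i1 ∧
        Example n (K + 1) P := by
  have hv0 : constantCoeff (σ := Fin n) (R := ℂ) (vv i0 i1) = 0 := by simp [vv]
  have hu0 : constantCoeff (σ := Fin n) (R := ℂ) (uu i0 i1) = 0 := by simp [uu]
  have ht0 : constantCoeff (σ := Fin n) (R := ℂ) (X i2) = 0 := by simp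
  obtain ⟨s, hs⟩ := exists_root K (u := uu i0 i1) hv0 ht0
  have hD : Dat (au i0 i1) (bv i0 i1) (ev i2) (uu i0 i1) (vv i0 i1) (X i2) s K :=
    { hu := lin_uu i0 i1
      hv := lin_vv i0 i1
      ht := isLin_X i2
      aa := s_aa h01
      ab := s_ab h01
      ac := s_ac h02 h12
      bb := s_bb h01
      bc := s_bc h02 h12
      cc := by rw [sum_ev]; simp
      u0 := hu0
      v0 := hv0
      t0 := ht0
      K1 := hK
      eq := hs }
  obtain ⟨h1, h2, h3⟩ := assemble (a := fun i => -au i0 i1 i) (l := -uu i0 i1) (Q := s)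
    (lin_uu i0 i1).neg (by
      rw [← s_aa h01]
      exact Finset.sum_congr rfl fun i _ => by ring) hD.lap0 hD.gr0 hD.nilp
    (fun m _ => hD.nonvan m)
  refine ⟨s, -uu i0 i1 + s, ?_, by ring, h1, ?_, h2, h3⟩
  · have h6 : (s ^ K) ^ 2 = s ^ (2 * K) := by rw [← pow_mul, mul_comm]
    rw [h6] at hs
    exact hs.symm
  have hs0 : constantCoeff (σ := Fin n) (R := ℂ) s = 0 := by
    rw [← hs]
    simp [hu0, hv0]
  have h4 : -uu i0 i1 + s = s ^ K * (2 * X i2 - vv i0 i1 * s ^ K) := by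
    linear_combination -hs
  rw [h4]
  refine le_trans ?_ le_order_mul
  have h5 : ((K : ℕ) : ℕ∞) ≤ (s ^ K).order :=
    le_order_pow_of_constantCoeff_eq_zero K hs0
  have h6 : (1 : ℕ∞) ≤ (2 * X i2 - vv i0 i1 * s ^ K).order := by
    rw [one_le_order_iff_constCoeff_eq_zero]
    simp [hv0]
  push_cast
  exact add_le_add h5 h6

/-! ### two variables, order one -/

section two

variable {a : Fin n → ℂ} {u q : MvPowerSeries (Fin n) ℂ}

theorem dq (hu : IsLin a u) (hq : q * (1 - u) = 1) (i : Fin n) :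
    pderiv ℂ i q = C (a i) * q ^ 2 := by
  have h1 := congrArg (pderiv ℂ i) hq
  rw [pderiv_mul', map_sub, Derivation.map_one_eq_zero, hu i] at h1
  linear_combination q * h1 - pderiv ℂ i q * hq

theorem ddq (hu : IsLin a u) (hq : q * (1 - u) = 1) (b : Fin n → ℂ) (hab : ∑ i, b i * a i = 2)
    (m : ℕ) : (dd b)^[m] q = ((2 ^ m * m.factorial : ℕ) : MvPowerSeries (Fin n) ℂ) * q ^ (m + 1) := by
  have hd : dd b q = 2 * q ^ 2 := by
    rw [dd_apply]
    have h1 : ∀ i ∈ Finset.univ, (C (b i) : MvPowerSeries (Fin n) ℂ) * pderiv ℂ i q =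
        C (b i) * C (a i) * q ^ 2 := by
      intro i _
      rw [dq hu hq]
      ring
    rw [Finset.sum_congr rfl h1, ← Finset.sum_mul, sumC, hab]
    have h2 : (C 2 : MvPowerSeries (Fin n) ℂ) = 2 := map_ofNat _ 2
    rw [h2]
  induction m with
  | zero => simp
  | succ m ih =>
    rw [Function.iterate_succ_apply', ih, Derivation.leibniz, Derivation.map_natCast, smul_zero,
      add_zero, smul_eq_mul, Derivation.leibniz_pow, hd, Nat.factorial_succ, Nat.add_sub_cancel,
      smul_eq_mul, nsmul_eq_mul]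
    push_cast
    ring

theorem two_ex (i0 i1 : Fin n) (h01 : i0 ≠ i1) : ∃ q P : MvPowerSeries (Fin n) ℂ,
    q * (1 - uu i0 i1) = 1 ∧ P = vv i0 i1 + (q - 1) ∧ Example n 1 P := by
  have hu0 : constantCoeff (σ := Fin n) (R := ℂ) (uu i0 i1) = 0 := by simp [uu]
  obtain ⟨q, hq⟩ : ∃ q : MvPowerSeries (Fin n) ℂ, q * (1 - uu i0 i1) = 1 :=
    ⟨(1 - uu i0 i1)⁻¹, MvPowerSeries.inv_mul_cancel _ (by simp [hu0])⟩
  have hu := lin_uu i0 i1
  have hdq := dq hu hq
  have hab : ∑ i, bv i0 i1 i * au i0 i1 i = 2 := by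
    rw [← s_ab h01]
    exact Finset.sum_congr rfl fun i _ => mul_comm _ _
  have hd1 : ∀ i, pderiv ℂ i (q - 1) = C (au i0 i1 i) * q ^ 2 := by
    intro i
    rw [map_sub, Derivation.map_one_eq_zero, sub_zero, hdq]
  have hd2 : ∀ i j, pderiv ℂ i (pderiv ℂ j (q - 1)) =
      (2 * q ^ 3) * (C (au i0 i1 i) * C (au i0 i1 j)) := by
    intro i j
    rw [hd1, pderiv_Cmul, pderiv_pow, hdq]
    norm_num
    ring
  have hsum : ∑ i, (C (au i0 i1 i) : MvPowerSeries (Fin n) ℂ) * C (au i0 i1 i) = 0 := by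
    rw [sumC, s_aa h01, map_zero]
  have hlap : lap (q - 1) = 0 := by
    unfold lap
    rw [Finset.sum_congr rfl fun i _ => hd2 i i, ← Finset.mul_sum, hsum, mul_zero]
  have hgr : gr (q - 1) (q - 1) = 0 := by
    unfold gr
    have h1 : ∀ i ∈ Finset.univ, pderiv ℂ i (q - 1) * pderiv ℂ i (q - 1) =
        q ^ 4 * (C (au i0 i1 i) * C (au i0 i1 i)) := by
      intro i _
      rw [hd1]
      ring
    rw [Finset.sum_congr rfl h1, ← Finset.mul_sum, hsum, mul_zero]
  have hq0 : q ≠ 0 := by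
    rintro rfl
    rw [zero_mul] at hq
    exact zero_ne_one hq
  obtain ⟨h1, h2, h3⟩ := assemble (a := bv i0 i1) (l := vv i0 i1) (Q := q - 1)
    (lin_vv i0 i1) (s_bb h01) hlap hgr (by
      refine ⟨3, ?_⟩
      have h := cube_zero (fun i => (C (au i0 i1 i) : MvPowerSeries (Fin n) ℂ)) (fun _ => 0) 0
        (2 * q ^ 3) hsum (by simp) (hess (q - 1)) (fun i j => by
          rw [zero_mul, zero_add]
          exact hd2 i j)
      rw [pow_succ, pow_two]
      exact h)
    (fun m hm => by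
      have h4 : (dd (bv i0 i1))^[m] (q - 1) = (dd (bv i0 i1))^[m] q := by
        rw [iterate_map_sub, dd_iter_one _ hm, sub_zero]
      rw [h4, ddq hu hq _ hab]
      refine mul_ne_zero (natCast_ne ?_) (pow_ne_zero _ hq0)
      have := Nat.factorial_ne_zero m
      positivity)
  refine ⟨q, vv i0 i1 + (q - 1), hq, rfl, h1, ?_, h2, h3⟩
  rw [Nat.cast_one, one_le_order_iff_constCoeff_eq_zero]
  have hq1 : constantCoeff (σ := Fin n) (R := ℂ) q = 1 := by
    have h := congrArg (constantCoeff (σ := Fin n) (R := ℂ)) hq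
    rw [map_mul, map_sub, map_one, hu0, sub_zero, mul_one] at h
    exact h
  rw [map_add, map_sub, map_one, hq1]
  simp [vv]

end two

/-! ### at most two variables: no examples -/

theorem const_of_grad {f : MvPowerSeries (Fin n) ℂ} (h : ∀ i, pderiv ℂ i f = 0) :
    f = C (constantCoeff f) := by
  apply pderiv.ext
  · intro i
    rw [h i, pderiv_C]
  · rw [constantCoeff_C]

theorem coeff_one_of_order {P : MvPowerSeries (Fin n) ℂ} (h : (2 : ℕ∞) ≤ P.order) (i : Fin n) :
    constantCoeff (pderiv ℂ i P) = 0 := by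
  rw [← coeff_zero_eq_constantCoeff_apply, coeff_pderiv, zero_add]
  have h1 : coeff (Finsupp.single i 1) P = 0 := by
    apply coeff_of_lt_order
    rw [Finsupp.degree_single]
    refine lt_of_lt_of_le ?_ h
    norm_num
  rw [h1, zero_mul]

/-- In two variables a Hessian nilpotent power series without terms of degree at most one is
harmonic with isotropic gradient, so all its powers are harmonic. -/
theorem two_vanish {P : MvPowerSeries (Fin 2) ℂ} (hP : (2 : ℕ∞) ≤ P.order)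
    (hn : IsNilpotent (hess P)) {m : ℕ} (hm : 1 ≤ m) : lap^[m] (P ^ (m + 1)) = 0 := by
  have htr : (hess P).trace = 0 := (Matrix.isNilpotent_trace_of_isNilpotent hn).eq_zero
  have hdet : (hess P).det = 0 := by
    obtain ⟨k, hk⟩ := hn
    have h1 : (hess P).det ^ k = 0 := by
      rw [← Matrix.det_pow, hk, Matrix.det_zero]
    exact (IsNilpotent.eq_zero ⟨k, h1⟩)
  rw [Matrix.trace_fin_two] at htr
  rw [Matrix.det_fin_two] at hdet
  simp only [hess, Matrix.of_apply] at htr hdet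
  set p00 := pderiv ℂ (0 : Fin 2) (pderiv ℂ (0 : Fin 2) P) with h00
  set p01 := pderiv ℂ (0 : Fin 2) (pderiv ℂ (1 : Fin 2) P) with h01
  set p11 := pderiv ℂ (1 : Fin 2) (pderiv ℂ (1 : Fin 2) P) with h11
  have h10 : pderiv ℂ (1 : Fin 2) (pderiv ℂ (0 : Fin 2) P) = p01 := pderiv_comm' 1 0 P
  rw [h10] at hdet
  have hI : (C Complex.I : MvPowerSeries (Fin 2) ℂ) * C Complex.I = -1 := by
    rw [← map_mul, Complex.I_mul_I, map_neg, map_one]
  have hfac : (p01 - C Complex.I * p00) * (p01 + C Complex.I * p00) = 0 := by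
    linear_combination -hdet + p00 * htr - p00 ^ 2 * hI
  have hε : ∃ z : ℂ, z * z = -1 ∧ p01 = C z * p00 := by
    rcases mul_eq_zero.1 hfac with h | h
    · exact ⟨Complex.I, Complex.I_mul_I, sub_eq_zero.1 h⟩
    · refine ⟨-Complex.I, by rw [neg_mul_neg, Complex.I_mul_I], ?_⟩
      rw [map_neg]
      linear_combination h
  obtain ⟨z, hz, hpz⟩ := hε
  have hzC : (C z : MvPowerSeries (Fin 2) ℂ) * C z = -1 := by
    rw [← map_mul, hz, map_neg, map_one]
  have hg : pderiv ℂ (1 : Fin 2) P = C z * pderiv ℂ (0 : Fin 2) P := by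
    have h1 := const_of_grad (f := pderiv ℂ (1 : Fin 2) P - C z * pderiv ℂ (0 : Fin 2) P) (by
      intro i
      rw [map_sub, pderiv_Cmul]
      fin_cases i
      · show p01 - C z * p00 = 0
        rw [hpz, sub_self]
      · show p11 - C z * pderiv ℂ (1 : Fin 2) (pderiv ℂ (0 : Fin 2) P) = 0
        rw [h10, hpz]
        linear_combination htr - p00 * hzC)
    rw [map_sub, map_mul, coeff_one_of_order hP, coeff_one_of_order hP, mul_zero, sub_zero,
      map_zero] at h1
    exact sub_eq_zero.1 h1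
  have hlap : lap P = 0 := by
    unfold lap
    rw [Fin.sum_univ_two]
    exact htr
  have hgr : gr P P = 0 := by
    unfold gr
    rw [Fin.sum_univ_two, hg]
    linear_combination (pderiv ℂ (0 : Fin 2) P) ^ 2 * hzC
  obtain ⟨k, rfl⟩ : ∃ k, m = k + 1 := ⟨m - 1, by omega⟩
  rw [Function.iterate_succ_apply, lap_pow hlap hgr, lap_iter_zero]

/-- In at most one variable Hessian nilpotent power series are polynomials. -/
theorem one_poly {P : MvPowerSeries (Fin 1) ℂ} (hn : IsNilpotent (hess P)) :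
    ∃ p : MvPolynomial (Fin 1) ℂ, (p : MvPowerSeries (Fin 1) ℂ) = P := by
  have htr : (hess P).trace = 0 := (Matrix.isNilpotent_trace_of_isNilpotent hn).eq_zero
  rw [Matrix.trace_fin_one] at htr
  simp only [hess, Matrix.of_apply] at htr
  have h1 := const_of_grad (f := pderiv ℂ (0 : Fin 1) P) (by
    intro i
    rw [Subsingleton.elim i 0]
    exact htr)
  set c := constantCoeff (pderiv ℂ (0 : Fin 1) P) with hc
  have h2 := const_of_grad (f := P - C c * X 0) (by
    intro i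
    rw [Subsingleton.elim i 0, map_sub, pderiv_Cmul, pderiv_X_self, mul_one, h1, sub_self])
  refine ⟨MvPolynomial.C (constantCoeff (P - C c * X 0)) + MvPolynomial.C c * MvPolynomial.X 0, ?_⟩
  rw [MvPolynomial.coe_add, MvPolynomial.coe_mul, MvPolynomial.coe_C, MvPolynomial.coe_C,
    MvPolynomial.coe_X, ← h2]
  ring

theorem zero_poly (P : MvPowerSeries (Fin 0) ℂ) :
    ∃ p : MvPolynomial (Fin 0) ℂ, (p : MvPowerSeries (Fin 0) ℂ) = P := by
  refine ⟨MvPolynomial.C (constantCoeff P), ?_⟩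
  rw [MvPolynomial.coe_C]
  exact (const_of_grad (f := P) fun i => i.elim0).symm

end

end Pool.Agent.Y518.HN
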